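import Pool.Agent.Helper6.EC_B.Goals

/-! Packet D2 of MP_ecc237_nt, Part B: the odd part of `log Γ(1+z)` to fifth order. -/

set_option autoImplicit false

open MeasureTheory Filter Topology Set

namespace EC237.PB.PkD2

theorem log_bound (x : ℝ) (h : |x| ≤ 1 / 2) :
    |Real.log (1 + x) - Real.log (1 - x) - (2 * x + 2 / 3 * x ^ 3 + 2 / 5 * x ^ 5)| ≤
      4 * |x| ^ 6 := by
  have h1 : |x| < 1 := by linarith
  have h2 : |-x| < 1 := by rwa [abs_neg]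
  have e1 := Real.abs_log_sub_add_sum_range_le h1 5
  have e2 := Real.abs_log_sub_add_sum_range_le h2 5
  have h3 : |x| ^ 6 / (1 - |x|) ≤ 2 * |x| ^ 6 := by
    rw [div_le_iff₀ (by linarith)]
    nlinarith [pow_nonneg (abs_nonneg x) 6]
  rw [abs_neg] at e2
  have e1' := e1.trans h3
  have e2' := e2.trans h3
  simp only [Finset.sum_range_succ, Finset.sum_range_zero, sub_neg_eq_add] at e1' e2'
  rw [abs_le] at e1' e2' ⊢
  norm_num at e1' e2'
  have p2 : (-x) ^ 2 = x ^ 2 := by ring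
  have p3 : (-x) ^ 3 = -x ^ 3 := by ring
  have p4 : (-x) ^ 4 = x ^ 4 := by ring
  have p5 : (-x) ^ 5 = -x ^ 5 := by ring
  rw [p3, p5] at e2'
  constructor <;> nlinarith [e1'.1, e1'.2, e2'.1, e2'.2]

theorem summ (p : ℕ) (hp : 1 < p) : Summable (fun m : ℕ => 1 / ((m:ℝ) + 1) ^ p) := by
  have h := (summable_nat_add_iff (f := fun m : ℕ => 1 / (m:ℝ) ^ p) 1).2
    (Real.summable_one_div_nat_pow.2 hp)
  refine h.congr fun m => ?_
  push_cast
  rfl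

theorem tendsto_sum (p : ℕ) (hp : 1 < p) :
    Tendsto (fun n : ℕ => ∑ m ∈ Finset.range (n + 1), 1 / ((m:ℝ) + 1) ^ p) atTop
      (𝓝 (∑' m : ℕ, 1 / ((m:ℝ) + 1) ^ p)) :=
  ((summ p hp).hasSum.tendsto_sum_nat).comp (tendsto_add_atTop_nat 1)

theorem tendsto_harm :
    Tendsto (fun n : ℕ => (∑ m ∈ Finset.range (n + 1), 1 / ((m:ℝ) + 1)) - Real.log n) atTop
      (𝓝 Real.eulerMascheroniConstant) := by
  have h1 := Real.tendsto_harmonic_sub_log
  have h2 := h1.add (tendsto_one_div_add_atTop_nhds_zero_nat (𝕜 := ℝ))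
  rw [add_zero] at h2
  refine h2.congr fun n => ?_
  rw [Finset.sum_range_succ, harmonic]
  push_cast
  simp only [one_div]
  ring

theorem thm : G_D2 := by
  refine ⟨2 / 3 * ∑' m : ℕ, 1 / ((m:ℝ) + 1) ^ 3, 4 * ∑' m : ℕ, 1 / ((m:ℝ) + 1) ^ 6, ?_⟩
  intro z hz
  obtain ⟨hz1, hz2⟩ : -(1 / 2) ≤ z ∧ z ≤ 1 / 2 := abs_le.1 hz
  have g1 := Real.BohrMollerup.tendsto_log_gamma (x := 1 + z) (by linarith)
  have g2 := Real.BohrMollerup.tendsto_log_gamma (x := 1 - z) (by linarith)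
  have g3 := (((g1.sub g2).add (tendsto_harm.const_mul (2 * z))).add
    ((tendsto_sum 3 (by norm_num)).const_mul (2 / 3 * z ^ 3))).add
    ((tendsto_sum 5 (by norm_num)).const_mul (2 / 5 * z ^ 5))
  have g4 := g3.abs
  have hb : ∀ n : ℕ, |Real.BohrMollerup.logGammaSeq (1 + z) n -
      Real.BohrMollerup.logGammaSeq (1 - z) n +
      2 * z * ((∑ m ∈ Finset.range (n + 1), 1 / ((m:ℝ) + 1)) - Real.log n) +
      2 / 3 * z ^ 3 * (∑ m ∈ Finset.range (n + 1), 1 / ((m:ℝ) + 1) ^ 3) +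
      2 / 5 * z ^ 5 * (∑ m ∈ Finset.range (n + 1), 1 / ((m:ℝ) + 1) ^ 5)| ≤
      4 * (∑' m : ℕ, 1 / ((m:ℝ) + 1) ^ 6) * |z| ^ 6 := by
    intro n
    have hterm : ∀ m : ℕ, |Real.log (1 + z + m) - Real.log (1 - z + m) -
        (2 * z * (1 / ((m:ℝ) + 1)) + 2 / 3 * z ^ 3 * (1 / ((m:ℝ) + 1) ^ 3) +
          2 / 5 * z ^ 5 * (1 / ((m:ℝ) + 1) ^ 5))| ≤ 4 * |z| ^ 6 * (1 / ((m:ℝ) + 1) ^ 6) := by
      intro m
      have hm : (0:ℝ) ≤ (m:ℝ) := Nat.cast_nonneg m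
      have hm1 : (0:ℝ) < (m:ℝ) + 1 := by linarith
      have hw : |z / ((m:ℝ) + 1)| ≤ 1 / 2 := by
        rw [abs_div, abs_of_pos hm1, div_le_iff₀ hm1]
        linarith
      have h1 := log_bound (z / ((m:ℝ) + 1)) hw
      obtain ⟨hw2, hw3⟩ := abs_le.1 hw
      have e1 : Real.log (1 + z + m) = Real.log (1 + z / ((m:ℝ) + 1)) + Real.log ((m:ℝ) + 1) := by
        rw [← Real.log_mul (by linarith) hm1.ne']
        congr 1
        field_simp
        ring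
      have e2 : Real.log (1 - z + m) = Real.log (1 - z / ((m:ℝ) + 1)) + Real.log ((m:ℝ) + 1) := by
        rw [← Real.log_mul (by linarith) hm1.ne']
        congr 1
        field_simp
        ring
      rw [e1, e2]
      have e3 : Real.log (1 + z / ((m:ℝ) + 1)) + Real.log ((m:ℝ) + 1) -
          (Real.log (1 - z / ((m:ℝ) + 1)) + Real.log ((m:ℝ) + 1)) -
          (2 * z * (1 / ((m:ℝ) + 1)) + 2 / 3 * z ^ 3 * (1 / ((m:ℝ) + 1) ^ 3) +
            2 / 5 * z ^ 5 * (1 / ((m:ℝ) + 1) ^ 5)) =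
          Real.log (1 + z / ((m:ℝ) + 1)) - Real.log (1 - z / ((m:ℝ) + 1)) -
          (2 * (z / ((m:ℝ) + 1)) + 2 / 3 * (z / ((m:ℝ) + 1)) ^ 3 +
            2 / 5 * (z / ((m:ℝ) + 1)) ^ 5) := by
        rw [div_pow, div_pow]
        ring
      rw [e3]
      refine h1.trans (le_of_eq ?_)
      rw [abs_div, abs_of_pos hm1, div_pow]
      ring
    have e1 : Real.BohrMollerup.logGammaSeq (1 + z) n -
        Real.BohrMollerup.logGammaSeq (1 - z) n +
        2 * z * ((∑ m ∈ Finset.range (n + 1), 1 / ((m:ℝ) + 1)) - Real.log n) +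
        2 / 3 * z ^ 3 * (∑ m ∈ Finset.range (n + 1), 1 / ((m:ℝ) + 1) ^ 3) +
        2 / 5 * z ^ 5 * (∑ m ∈ Finset.range (n + 1), 1 / ((m:ℝ) + 1) ^ 5) =
        -∑ m ∈ Finset.range (n + 1), (Real.log (1 + z + m) - Real.log (1 - z + m) -
        (2 * z * (1 / ((m:ℝ) + 1)) + 2 / 3 * z ^ 3 * (1 / ((m:ℝ) + 1) ^ 3) +
          2 / 5 * z ^ 5 * (1 / ((m:ℝ) + 1) ^ 5))) := by
      unfold Real.BohrMollerup.logGammaSeq
      simp only [Finset.sum_sub_distrib, Finset.sum_add_distrib, ← Finset.mul_sum]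
      ring
    rw [e1, abs_neg]
    refine (Finset.abs_sum_le_sum_abs _ _).trans ((Finset.sum_le_sum fun m _ => hterm m).trans ?_)
    rw [← Finset.mul_sum]
    have h2 : ∑ m ∈ Finset.range (n + 1), 1 / ((m:ℝ) + 1) ^ 6 ≤
        ∑' m : ℕ, 1 / ((m:ℝ) + 1) ^ 6 :=
      (summ 6 (by norm_num)).sum_le_tsum _ (fun m _ => by positivity)
    calc 4 * |z| ^ 6 * ∑ m ∈ Finset.range (n + 1), 1 / ((m:ℝ) + 1) ^ 6
        ≤ 4 * |z| ^ 6 * ∑' m : ℕ, 1 / ((m:ℝ) + 1) ^ 6 :=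
          mul_le_mul_of_nonneg_left h2 (by positivity)
      _ = _ := by ring
  have h5 := le_of_tendsto' g4 hb
  refine le_trans (le_of_eq ?_) h5
  congr 1
  unfold zeta5
  ring

end EC237.PB.PkD2
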